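import Pool.Agent.N352.PJ.Loc
import Pool.Agent.N169.PP.SD

/-!
# The lattice `I` with `I ^ 2 = α O` and lattices given by valuations

Part PJ-SD of project PJ (helper352), written by helper588, after PP-SD of helper169.
-/

set_option autoImplicit false
set_option linter.all false

open Polynomial IsDedekindDomain nonZeroDivisors
open scoped Classical

namespace Pool.Agent.N588.PJ

open Pool.Agent.N352.PJ
open Pool.Agent.N169.PP (val_eq exists_sqrt)

/-- The ring of integers is finite over `k[X]`. -/
theorem fin_O (hI : S_INT) (g : ℕ) (k K L O : Type) [Field k] [Field K] [Algebra k[X] K]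
    [IsFractionRing k[X] K]
    [Field L] [Algebra K L] [Algebra k[X] L] [IsScalarTower k[X] K L] [CommRing O]
    [IsDedekindDomain O] [Algebra O L] [IsFractionRing O L] [Algebra k[X] O]
    [IsScalarTower k[X] O L] [IsIntegralClosure O k[X] L] (f : k[X][X]) (θ : L)
    (hc : IsGen g K f θ) (hs : Squarefree (dsc g f)) :
    (∃ θ' : O, algebraMap O L θ' = θ) ∧ Module.Finite k[X] O := by
  have hinj : Function.Injective (algebraMap O L) := IsFractionRing.injective O L
  have hθ : IsIntegral k[X] θ := ⟨f, hc.mon, hc.root⟩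
  obtain ⟨θ', hθ'⟩ := (IsIntegralClosure.isIntegral_iff (A := O)).1 hθ
  refine ⟨⟨θ', hθ'⟩, ⟨⟨Finset.univ.image fun i : Fin (2 * g + 1) => θ' ^ (i : ℕ), ?_⟩⟩⟩
  rw [eq_top_iff]
  intro x _
  have hx : IsIntegral k[X] (algebraMap O L x) := (IsIntegralClosure.isIntegral_iff (A := O)).2 ⟨x, rfl⟩
  obtain ⟨v, hv⟩ := (hI g k K L f θ hc hs _).1 hx
  have : x = ∑ i, v i • θ' ^ (i : ℕ) := by
    apply hinj
    rw [hv, map_sum]
    refine Finset.sum_congr rfl fun i _ => ?_
    simp only [Algebra.smul_def, map_mul, map_pow, hθ', ← IsScalarTower.algebraMap_apply]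
  rw [this]
  refine Submodule.sum_mem _ fun i _ => Submodule.smul_mem _ _ (Submodule.subset_span ?_)
  simp

/-- A basis of a fractional ideal over `k[X]`. -/
theorem basis_I (hI : S_INT) (g : ℕ) (k K L O : Type) [Field k] [Field K] [Algebra k[X] K]
    [IsFractionRing k[X] K]
    [Field L] [Algebra K L] [Algebra k[X] L] [IsScalarTower k[X] K L] [CommRing O]
    [IsDedekindDomain O] [Algebra O L] [IsFractionRing O L] [Algebra k[X] O]
    [IsScalarTower k[X] O L] [IsIntegralClosure O k[X] L] (f : k[X][X]) (θ : L)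
    (hc : IsGen g K f θ) (hs : Squarefree (dsc g f))
    (I : FractionalIdeal O⁰ L) (h0 : I ≠ 0) :
    ∃ e : Fin (2 * g + 1) → L, LinearIndependent K e ∧ (∀ i, e i ∈ I) ∧
      ∀ y ∈ I, ∃ c : Fin (2 * g + 1) → k[X], y = ∑ i, algebraMap k[X] L (c i) * e i := by
  obtain ⟨⟨θ', hθ'⟩, hfin⟩ := fin_O hI g k K L O f θ hc hs
  have hinjL : Function.Injective (algebraMap k[X] L) := by
    rw [IsScalarTower.algebraMap_eq k[X] K L]
    exact (algebraMap K L).injective.comp (IsFractionRing.injective k[X] K)
  set M : Submodule k[X] L := (I : Submodule O L).restrictScalars k[X] with hM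
  have hmem : ∀ y : L, y ∈ M ↔ y ∈ I := fun y => Iff.rfl
  haveI : IsNoetherian O (I : Submodule O L) := FractionalIdeal.isNoetherian I
  haveI : Module.Finite O (I : Submodule O L) := inferInstance
  haveI h2 : Module.Finite k[X] (I : Submodule O L) := Module.Finite.trans O _
  haveI h3 : Module.Finite k[X] M := h2
  haveI : Module.IsTorsionFree k[X] L := by
    refine ⟨fun r hr => ?_⟩
    intro x y hxy
    have hr0 : r ≠ 0 := hr.ne_zero
    simp only [Algebra.smul_def] at hxy
    exact mul_left_cancel₀ (by rwa [ne_eq, map_eq_zero_iff _ hinjL]) hxy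
  haveI : Module.IsTorsionFree k[X] M := inferInstance
  haveI : Module.Free k[X] M := inferInstance
  let B := Module.Free.chooseBasis k[X] M
  have hli : LinearIndependent k[X] (fun i => (B i : L)) :=
    B.linearIndependent.map' M.subtype (Submodule.ker_subtype M)
  have hliK : LinearIndependent K (fun i => (B i : L)) :=
    (LinearIndependent.iff_fractionRing k[X] K).1 hli
  have hsum : ∀ y ∈ I, ∃ c : Module.Free.ChooseBasisIndex k[X] M → k[X],
      y = ∑ i, algebraMap k[X] L (c i) * (B i : L) := by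
    intro y hy
    have hy' : y ∈ M := (hmem y).2 hy
    refine ⟨fun i => B.repr ⟨y, hy'⟩ i, ?_⟩
    have h4 := congrArg (Subtype.val) (B.sum_repr ⟨y, hy'⟩)
    have h5 : ((∑ i, (B.repr ⟨y, hy'⟩) i • B i : M) : L) =
        ∑ i, algebraMap k[X] L (B.repr ⟨y, hy'⟩ i) * (B i : L) := by
      rw [Submodule.coe_sum]
      refine Finset.sum_congr rfl fun i _ => ?_
      rw [Submodule.coe_smul, Algebra.smul_def]
    exact h4.symm.trans h5
  have hspanI : ∀ y ∈ I, y ∈ Submodule.span K (Set.range fun i => (B i : L)) := by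
    intro y hy
    obtain ⟨c, hc'⟩ := hsum y hy
    rw [hc']
    refine Submodule.sum_mem _ fun i _ => ?_
    rw [IsScalarTower.algebraMap_apply k[X] K L, ← Algebra.smul_def]
    exact Submodule.smul_mem _ _ (Submodule.subset_span ⟨i, rfl⟩)
  obtain ⟨y, hy, hy0⟩ : ∃ y ∈ I, y ≠ 0 := by
    by_contra hcon
    push Not at hcon
    apply h0
    rw [FractionalIdeal.eq_zero_iff]
    exact hcon
  have hθy : ∀ i : ℕ, θ ^ i * y ∈ I := by
    intro i
    rw [← hθ', ← map_pow, ← Algebra.smul_def]
    exact Submodule.smul_mem (I : Submodule O L) (θ' ^ i) hy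
  have hspan : ⊤ ≤ Submodule.span K (Set.range fun i => (B i : L)) := by
    intro x _
    obtain ⟨c, hx⟩ := hc.gen (x / y)
    have : x = ∑ i, c i • (θ ^ (i : ℕ) * y) := by
      rw [div_eq_iff hy0] at hx
      rw [hx, Finset.sum_mul]
      refine Finset.sum_congr rfl fun i _ => ?_
      rw [Algebra.smul_def, mul_assoc]
    rw [this]
    exact Submodule.sum_mem _ fun i _ => Submodule.smul_mem _ _ (hspanI _ (hθy _))
  have hcard : Fintype.card (Module.Free.ChooseBasisIndex k[X] M) = 2 * g + 1 := by
    rw [← Module.finrank_eq_card_basis (Module.Basis.mk hliK hspan), hc.rank]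
  let E : Fin (2 * g + 1) ≃ Module.Free.ChooseBasisIndex k[X] M :=
    (Fintype.equivFinOfCardEq hcard).symm
  refine ⟨fun i => (B (E i) : L), hliK.comp E E.injective, fun i => (B (E i)).2, ?_⟩
  intro y hy
  obtain ⟨c, hc'⟩ := hsum y hy
  refine ⟨fun i => c (E i), ?_⟩
  rw [hc', ← E.sum_comp]

theorem sd (hI : S_INT) : S_SD := by
  intro g k K L O _ _ _ _ _ _ _ _ _ _ _ _ _ _ _ f θ hc hs α hα hev
  obtain ⟨I, h0, hII⟩ := exists_sqrt α hα hev
  obtain ⟨e, hli, hmem, hbas⟩ := basis_I hI g k K L O f θ hc hs I h0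
  refine ⟨e, hli, ?_, ?_⟩
  · intro i j
    have h1 : e i * e j ∈ FractionalIdeal.spanSingleton O⁰ α := by
      rw [← hII]
      exact FractionalIdeal.mul_mem_mul (hmem i) (hmem j)
    obtain ⟨z, hz⟩ := (FractionalIdeal.mem_spanSingleton _).1 h1
    rw [← hz, Algebra.smul_def, mul_div_cancel_right₀ _ hα]
    exact (IsIntegralClosure.isIntegral_iff (A := O)).2 ⟨z, rfl⟩
  · intro y hy
    apply hbas
    have h1 : FractionalIdeal.spanSingleton O⁰ y * I ≤ I * I := by
      rw [FractionalIdeal.mul_le]
      intro u hu w hw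
      rw [hII]
      obtain ⟨z, hz⟩ := (FractionalIdeal.mem_spanSingleton _).1 hu
      obtain ⟨c, hc'⟩ := hbas w hw
      have h2 : IsIntegral k[X] (w * y / α) := by
        rw [hc', Finset.sum_mul, Finset.sum_div]
        refine IsIntegral.sum _ fun i _ => ?_
        have : algebraMap k[X] L (c i) * e i * y / α = algebraMap k[X] L (c i) * (e i * y / α) := by ring
        rw [this]
        exact isIntegral_algebraMap.mul (hy i)
      obtain ⟨z', hz'⟩ := (IsIntegralClosure.isIntegral_iff (A := O)).1 h2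
      refine (FractionalIdeal.mem_spanSingleton _).2 ⟨z * z', ?_⟩
      rw [← hz, Algebra.smul_def, Algebra.smul_def, map_mul, hz']
      field_simp
    have h3 : FractionalIdeal.spanSingleton O⁰ y ≤ I := by
      have := mul_le_mul_left h1 I⁻¹
      rwa [mul_assoc, mul_inv_cancel₀ h0, mul_assoc, mul_inv_cancel₀ h0, mul_one, mul_one] at this
    exact FractionalIdeal.spanSingleton_le_iff_mem.1 h3

section ded

variable {O L : Type} [CommRing O] [IsDedekindDomain O] [Field L] [Algebra O L] [IsFractionRing O L]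

/-- A fractional ideal with prescribed exponents. -/
theorem exists_ideal (m : HeightOneSpectrum O → ℤ)
    (hm : ∀ᶠ v : HeightOneSpectrum O in Filter.cofinite, m v = 0) :
    ∃ I : FractionalIdeal O⁰ L, I ≠ 0 ∧ ∀ v, FractionalIdeal.count L v I = m v := by
  refine ⟨∏ᶠ v : HeightOneSpectrum O, (v.asIdeal : FractionalIdeal O⁰ L) ^ m v, ?_,
    fun v => FractionalIdeal.count_finprod L v m hm⟩
  refine finprod_induction (p := fun I : FractionalIdeal O⁰ L => I ≠ 0) one_ne_zero
    (fun a b ha hb => mul_ne_zero ha hb) fun v => ?_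
  exact zpow_ne_zero _ (FractionalIdeal.coeIdeal_ne_zero.mpr v.ne_bot)

/-- Ideals with nonnegative exponents are integral. -/
theorem le_one_of_count {J : FractionalIdeal O⁰ L} (hJ : J ≠ 0)
    (h : ∀ v : HeightOneSpectrum O, 0 ≤ FractionalIdeal.count L v J) : J ≤ 1 := by
  rw [← FractionalIdeal.finprod_heightOneSpectrum_factorization' L hJ]
  refine finprod_induction (p := fun I : FractionalIdeal O⁰ L => I ≤ 1) le_rfl
    (fun a b ha hb => mul_le_one' ha hb) fun v => ?_
  obtain ⟨n, hn⟩ := Int.eq_ofNat_of_zero_le (h v)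
  rw [hn]
  simp only [Int.ofNat_eq_natCast, zpow_natCast]
  exact pow_le_one' FractionalIdeal.coeIdeal_le_one n

/-- Membership in terms of the valuations. -/
theorem mem_iff {I : FractionalIdeal O⁰ L} (hI : I ≠ 0) (x : L) : x ∈ I ↔
    ∀ v : HeightOneSpectrum O, v.valuation L x ≤ WithZero.exp (-(FractionalIdeal.count L v I)) := by
  by_cases hx : x = 0
  · subst hx
    simp only [map_zero]
    exact ⟨fun _ v => bot_le, fun _ => FractionalIdeal.zero_mem I⟩
  have h0 : FractionalIdeal.spanSingleton O⁰ x ≠ 0 := by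
    rwa [ne_eq, FractionalIdeal.spanSingleton_eq_zero_iff]
  have key : ∀ v : HeightOneSpectrum O, v.valuation L x ≤
      WithZero.exp (-(FractionalIdeal.count L v I)) ↔ FractionalIdeal.count L v I ≤
        FractionalIdeal.count L v (FractionalIdeal.spanSingleton O⁰ x) := by
    intro v
    rw [val_eq v x hx, WithZero.exp_le_exp]
    constructor <;> intro h <;> linarith
  simp only [key]
  constructor
  · intro h v
    exact FractionalIdeal.count_mono L v h0 (FractionalIdeal.spanSingleton_le_iff_mem.2 h)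
  · intro h
    apply FractionalIdeal.spanSingleton_le_iff_mem.1
    have h1 : FractionalIdeal.spanSingleton O⁰ x * I⁻¹ ≤ 1 := by
      refine le_one_of_count (mul_ne_zero h0 (inv_ne_zero hI)) fun v => ?_
      rw [FractionalIdeal.count_mul L v h0 (inv_ne_zero hI), FractionalIdeal.count_inv]
      have := h v
      linarith
    calc FractionalIdeal.spanSingleton O⁰ x
        = FractionalIdeal.spanSingleton O⁰ x * I⁻¹ * I := by
          rw [mul_assoc, inv_mul_cancel₀ hI, mul_one]
      _ ≤ 1 * I := mul_le_mul_left h1 I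
      _ = I := one_mul I

end ded

theorem lti (hI : S_INT) : S_LTI := by
  intro g k K L O _ _ _ _ _ _ _ _ _ _ _ _ _ _ _ f θ hc hs α T hα
  set b : HeightOneSpectrum O → ℤ := fun v =>
    FractionalIdeal.count L v (FractionalIdeal.spanSingleton O⁰ α) with hb
  set t : HeightOneSpectrum O → ℤ := fun v => if v ∈ T then 1 else 0 with ht
  have hm : ∀ᶠ v : HeightOneSpectrum O in Filter.cofinite, (fun v => -((t v - b v) / 2)) v = 0 := by
    have h1 : ∀ᶠ v : HeightOneSpectrum O in Filter.cofinite, b v = 0 :=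
      FractionalIdeal.finite_factors (K := L) (FractionalIdeal.spanSingleton O⁰ α)
    have h2 : ∀ᶠ v : HeightOneSpectrum O in Filter.cofinite, v ∉ T :=
      T.finite_toSet.eventually_cofinite_notMem
    filter_upwards [h1, h2] with v h3 h4
    simp only [ht, h3, if_neg h4]
    decide
  obtain ⟨I, h0, hcount⟩ := exists_ideal (L := L) _ hm
  obtain ⟨e, hli, hmem, hbas⟩ := basis_I hI g k K L O f θ hc hs I h0
  refine ⟨e, hli, fun x => ?_⟩
  have h5 : x ∈ I ↔ ∀ 𝔓 : HeightOneSpectrum O, 𝔓.valuation L x ^ 2 ≤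
      𝔓.valuation L α * (if 𝔓 ∈ T then WithZero.exp (1 : ℤ) else 1) := by
    rw [mem_iff h0]
    refine forall_congr' fun v => ?_
    have h6 : v.valuation L α * (if v ∈ T then WithZero.exp (1 : ℤ) else 1) =
        WithZero.exp (t v - b v) := by
      have e1 : (if v ∈ T then WithZero.exp (1 : ℤ) else 1) = WithZero.exp (t v) := by
        simp only [ht]
        split_ifs
        · rfl
        · rw [WithZero.exp_zero]
      rw [val_eq v α hα, e1, ← WithZero.exp_add]
      congr 1
      simp only [hb]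
      ring
    rw [h6, hcount]
    by_cases hx : x = 0
    · subst hx
      simp only [map_zero, ne_eq, OfNat.ofNat_ne_zero, not_false_eq_true, zero_pow]
      exact ⟨fun _ => bot_le, fun _ => bot_le⟩
    rw [val_eq v x hx, ← WithZero.exp_nsmul, WithZero.exp_le_exp, WithZero.exp_le_exp]
    simp only [smul_eq_mul, two_nsmul]
    constructor <;> intro h <;> omega
  rw [← h5]
  constructor
  · rintro ⟨ξ, rfl⟩
    have h7 : ∀ i, algebraMap k[X] L (ξ i) * e i ∈ I := by
      intro i
      rw [IsScalarTower.algebraMap_apply k[X] O L, ← Algebra.smul_def]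
      exact Submodule.smul_mem (I : Submodule O L) _ (hmem i)
    exact Submodule.sum_mem (I : Submodule O L) fun i _ => h7 i
  · exact fun h => hbas x h

end Pool.Agent.N588.PJ
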